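import Pool.Agent.TH263.DQ.Index

/-!
# The discriminant of a relative extension with a small integral generator

If `L = F(α)` has degree `g` over `F` and the integer `α` has all its conjugates of absolute value at
most `H`, `1 ≤ H`, then `|d_L| ≤ C H ^ (d g (g - 1))` with `d = [F : ℚ]` and `C` depending only on
`F` and `g`.
-/

set_option autoImplicit false
set_option linter.unusedSectionVars false

open Module NumberField

namespace Pool.Agent.Helper313LB

/-- a bound for the conjugates of an integral basis -/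
theorem exists_basis_bound (F : Type*) [Field F] [NumberField F] :
    ∃ C : ℝ, 1 ≤ C ∧ ∀ i, ∀ σ : F →+* ℂ, ‖σ (integralBasis F i)‖ ≤ C := by
  let S : Finset ℝ := Finset.univ.image fun x : (Free.ChooseBasisIndex ℤ (𝓞 F)) × (F →+* ℂ) =>
    ‖x.2 (integralBasis F x.1)‖
  obtain ⟨B, hB⟩ := S.bddAbove
  refine ⟨max 1 B, le_max_left _ _, fun i σ => le_trans (hB ?_) (le_max_right _ _)⟩
  exact Finset.mem_coe.2 (Finset.mem_image.2 ⟨(i, σ), Finset.mem_univ _, rfl⟩)

theorem discr_le_basis {L : Type*} [Field L] [NumberField L] {κ : Type*} [Fintype κ]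
    [DecidableEq κ] (b : Basis κ ℚ L) (hb : ∀ i, IsIntegral ℤ (b i)) :
    |(discr L : ℚ)| ≤ |Algebra.discr ℚ b| := by
  have hle : AddSubgroup.closure (Set.range b) ≤ Pool.Agent.TH263.DQ.IG L := by
    rw [AddSubgroup.closure_le]
    rintro _ ⟨i, rfl⟩
    exact hb i
  have h := Pool.Agent.TH263.DQ.discr_index b hle
  have h0 : Algebra.discr ℚ b ≠ 0 := Algebra.discr_not_zero_of_basis ℚ b
  have h1 : (AddSubgroup.closure (Set.range b)).relIndex (Pool.Agent.TH263.DQ.IG L) ≠ 0 := by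
    intro h2
    rw [h2] at h
    simp at h
    exact h0 h
  have h2 : (1 : ℚ) ≤
      ((AddSubgroup.closure (Set.range b)).relIndex (Pool.Agent.TH263.DQ.IG L) : ℚ) := by
    exact_mod_cast Nat.one_le_iff_ne_zero.2 h1
  rw [h]
  have h3 : (1 : ℚ) ≤
      ((AddSubgroup.closure (Set.range b)).relIndex (Pool.Agent.TH263.DQ.IG L) : ℚ) ^ 2 :=
    one_le_pow₀ h2
  nlinarith [abs_nonneg (discr L : ℚ)]

/-- the absolute value of a determinant with scaled rows -/
theorem det_scaled {κ : Type*} [Fintype κ] [DecidableEq κ] (M : Matrix κ κ ℂ) (v : κ → ℝ)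
    (hv : ∀ i, 0 < v i) {C : ℝ} (hM : ∀ i j, ‖M i j‖ ≤ C * v i) :
    ‖M.det‖ ≤ (Fintype.card κ).factorial * C ^ Fintype.card κ * ∏ i, v i := by
  let A : Matrix κ κ ℂ := Matrix.of fun i j => M i j / (v i : ℂ)
  have hMA : M = Matrix.of fun i j => (v i : ℂ) * A i j := by
    ext i j
    have : (v i : ℂ) ≠ 0 := by exact_mod_cast (hv i).ne'
    simp only [A, Matrix.of_apply]
    field_simp
  have h1 : ‖A.det‖ ≤ (Fintype.card κ).factorial * C ^ Fintype.card κ := by
    have := Matrix.det_le (A := A) (abv := NormedField.toAbsoluteValue ℂ) (x := C) (by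
      intro i j
      change ‖A i j‖ ≤ C
      simp only [A, Matrix.of_apply]
      rw [norm_div, Complex.norm_real, Real.norm_of_nonneg (hv i).le, div_le_iff₀ (hv i)]
      exact hM i j)
    rw [nsmul_eq_mul] at this
    exact this
  rw [hMA, Matrix.det_mul_column, norm_mul, norm_prod]
  have h2 : ∏ i, ‖((v i : ℝ) : ℂ)‖ = ∏ i, v i :=
    Finset.prod_congr rfl fun i _ => by rw [Complex.norm_real, Real.norm_of_nonneg (hv i).le]
  rw [h2, mul_comm]
  exact mul_le_mul_of_nonneg_right h1 (Finset.prod_nonneg fun i _ => (hv i).le)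

theorem discr_le_of_generator (F : Type*) [Field F] [NumberField F] (g : ℕ) :
    ∃ K : ℝ, 0 < K ∧ ∀ (L : Type*) [Field L] [NumberField L] [Algebra F L],
      finrank F L = g → ∀ α : L, IsIntegral ℤ α → Algebra.adjoin F {α} = ⊤ → ∀ H : ℝ, 1 ≤ H →
        (∀ σ : L →+* ℂ, ‖σ α‖ ≤ H) →
        ((|discr L| : ℤ) : ℝ) ≤ K * H ^ (finrank ℚ F * (g * (g - 1))) := by
  obtain ⟨C, hC1, hC⟩ := exists_basis_bound F
  set n := finrank ℚ F * g with hn
  refine ⟨(n.factorial * C ^ n) ^ 2, by positivity, ?_⟩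
  intro L _ _ _ hg α hα hgen H hH hσ
  have : IsScalarTower ℚ F L := IsScalarTower.of_algebraMap_eq' (Subsingleton.elim _ _)
  have hfd : FiniteDimensional F L := Module.Finite.of_restrictScalars_finite ℚ F L
  have hαF : IsIntegral F α := Algebra.IsIntegral.isIntegral α
  let pb : PowerBasis F L := PowerBasis.ofAdjoinEqTop hαF hgen
  have hgenα : pb.gen = α := PowerBasis.ofAdjoinEqTop_gen hαF hgen
  have hdim : pb.dim = g := by rw [← hg, pb.finrank]
  let b : Basis (Free.ChooseBasisIndex ℤ (𝓞 F) × Fin pb.dim) ℚ L :=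
    (integralBasis F).smulTower pb.basis
  have hb : ∀ x, b x = algebraMap F L (integralBasis F x.1) * α ^ (x.2 : ℕ) := by
    intro x
    rw [Basis.smulTower_apply, pb.basis_eq_pow, hgenα, Algebra.smul_def]
  have hcardF : Fintype.card (Free.ChooseBasisIndex ℤ (𝓞 F)) = finrank ℚ F :=
    (finrank_eq_card_basis (integralBasis F)).symm
  have hcard : Fintype.card (Free.ChooseBasisIndex ℤ (𝓞 F) × Fin pb.dim) = n := by
    rw [Fintype.card_prod, hcardF, Fintype.card_fin, hdim]
  have hint : ∀ x, IsIntegral ℤ (b x) := by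
    intro x
    rw [hb]
    refine IsIntegral.mul ?_ (hα.pow _)
    have h1 : IsIntegral ℤ (integralBasis F x.1) := by
      rw [integralBasis_apply]
      exact RingOfIntegers.isIntegral_coe _
    exact h1.map (IsScalarTower.toAlgHom ℤ F L)
  have h1 := discr_le_basis b hint
  have hcardE : Fintype.card (Free.ChooseBasisIndex ℤ (𝓞 F) × Fin pb.dim) =
      Fintype.card (L →ₐ[ℚ] ℂ) := by
    rw [AlgHom.card, finrank_eq_card_basis b]
  let e := Fintype.equivOfCardEq hcardE
  have h2 := Algebra.discr_eq_det_embeddingsMatrixReindex_pow_two ℚ ℂ b e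
  have h3 : ‖(Algebra.embeddingsMatrixReindex ℚ ℂ b e).det‖ ≤
      n.factorial * C ^ n * ∏ x : Free.ChooseBasisIndex ℤ (𝓞 F) × Fin pb.dim, H ^ (x.2 : ℕ) := by
    rw [← hcard]
    refine det_scaled _ _ (fun i => by positivity) ?_
    intro i j
    have : Algebra.embeddingsMatrixReindex ℚ ℂ b e i j = (e j) (b i) := rfl
    rw [this, hb, map_mul, map_pow, norm_mul, norm_pow]
    have h4 : ‖(e j) (algebraMap F L (integralBasis F i.1))‖ ≤ C :=
      hC i.1 (((e j : L →ₐ[ℚ] ℂ) : L →+* ℂ).comp (algebraMap F L))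
    have h5 : ‖(e j) α‖ ≤ H := hσ ((e j : L →ₐ[ℚ] ℂ) : L →+* ℂ)
    exact mul_le_mul h4 (pow_le_pow_left₀ (norm_nonneg _) h5 _) (by positivity) (by positivity)
  have h6 : (∏ x : Free.ChooseBasisIndex ℤ (𝓞 F) × Fin pb.dim, H ^ (x.2 : ℕ)) ^ 2 =
      H ^ (finrank ℚ F * (g * (g - 1))) := by
    rw [Fintype.prod_prod_type]
    simp only [Finset.prod_const]
    rw [Finset.prod_pow_eq_pow_sum, Finset.card_univ, hcardF, Fin.sum_univ_eq_sum_range (fun i => i),
      ← pow_mul, ← pow_mul]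
    congr 1
    have := Finset.sum_range_id_mul_two pb.dim
    rw [hdim] at this ⊢
    rw [← this]
    ring
  have h7 : ((|discr L| : ℤ) : ℝ) ≤ ‖(Algebra.embeddingsMatrixReindex ℚ ℂ b e).det‖ ^ 2 := by
    rw [← norm_pow, ← h2]
    have h8 : ‖(algebraMap ℚ ℂ) (Algebra.discr ℚ b)‖ = ((|Algebra.discr ℚ b| : ℚ) : ℝ) := by
      rw [eq_ratCast, ← Complex.ofReal_ratCast, Complex.norm_real, Real.norm_eq_abs]
      push_cast
      rfl
    rw [h8]
    have h9 : (((|(discr L : ℚ)| : ℚ)) : ℝ) ≤ ((|Algebra.discr ℚ b| : ℚ) : ℝ) := by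
      exact_mod_cast h1
    refine le_trans (le_of_eq ?_) h9
    push_cast
    rfl
  calc ((|discr L| : ℤ) : ℝ) ≤ ‖(Algebra.embeddingsMatrixReindex ℚ ℂ b e).det‖ ^ 2 := h7
    _ ≤ (n.factorial * C ^ n *
        ∏ x : Free.ChooseBasisIndex ℤ (𝓞 F) × Fin pb.dim, H ^ (x.2 : ℕ)) ^ 2 :=
        pow_le_pow_left₀ (norm_nonneg _) h3 2
    _ = _ := by rw [mul_pow, h6]

end Pool.Agent.Helper313LB
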