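import Pool.Agent.Helper313LB.Nf
import Pool.Agent.Helper313LB.Disc

/-!
# The number of the integers of a number field with bounded conjugates
-/

set_option autoImplicit false
set_option linter.unusedSectionVars false

open Module NumberField

namespace Pool.Agent.Helper313LB

variable (F : Type*) [Field F] [NumberField F]

/-- the integers of `F` all of whose conjugates have absolute value at most `B` -/
def Box (B : ℝ) : Set (𝓞 F) := {a | ∀ σ : F →+* ℂ, ‖σ (a : F)‖ ≤ B}

theorem finite_Box (B : ℝ) : (Box F B).Finite := by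
  have h := Embeddings.finite_of_norm_le F ℂ B
  refine Set.Finite.of_finite_image (f := ((↑) : 𝓞 F → F)) (h.subset ?_)
    (RingOfIntegers.coe_injective.injOn)
  rintro _ ⟨a, ha, rfl⟩
  exact ⟨a.isIntegral_coe, ha⟩

/-- upper bound -/
theorem ncard_Box_le {B : ℝ} (hB : 1 ≤ B) : ((Box F B).ncard : ℝ) ≤ (5 * B) ^ finrank ℚ F := by
  let f : F →ₗ[ℚ] ((F →+* ℂ) → ℂ) := (canonicalEmbedding F).toRatAlgHom.toLinearMap
  obtain ⟨hfd, hle⟩ := finrank_span_le f (⊤ : Submodule ℚ F)
  set V := Submodule.span ℝ (f '' ((⊤ : Submodule ℚ F) : Set F)) with hV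
  rw [finrank_top] at hle
  have hinj := canonicalEmbedding_injective F
  let G : AddSubgroup ((F →+* ℂ) → ℂ) :=
    ((algebraMap (𝓞 F) F).range.toAddSubgroup).map (canonicalEmbedding F).toAddMonoidHom
  have key : ∀ r : ℝ, 0 ≤ r → {x | x ∈ G ∧ ‖x‖ ≤ r} =
      (fun a : 𝓞 F => canonicalEmbedding F (a : F)) '' Box F r := by
    intro r hr
    ext y
    constructor
    · rintro ⟨⟨x, ⟨a, rfl⟩, rfl⟩, h2⟩
      exact ⟨a, fun σ => (norm_le_pi_norm (canonicalEmbedding F (a : F)) σ).trans h2, rfl⟩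
    · rintro ⟨a, ha, rfl⟩
      exact ⟨⟨a, ⟨a, rfl⟩, rfl⟩, (pi_norm_le_iff_of_nonneg hr).2 ha⟩
  have hinj' : Function.Injective (fun a : 𝓞 F => canonicalEmbedding F (a : F)) :=
    hinj.comp RingOfIntegers.coe_injective
  have hG : (G : Set ((F →+* ℂ) → ℂ)) ⊆ V := by
    rintro _ ⟨x, hx, rfl⟩
    exact Submodule.subset_span ⟨x, trivial, rfl⟩
  have hf : ∀ r : ℝ, 0 ≤ r → {x | x ∈ G ∧ ‖x‖ ≤ r}.Finite := fun r hr => by
    rw [key r hr]
    exact (finite_Box F r).image _
  have h := card_two_scales V G hG (R := B) (ρ := 1 / 2) (by norm_num) (by linarith)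
    (hf _ (by linarith)) (hf _ (by norm_num))
  rw [key _ (by linarith), key _ (by norm_num), Set.ncard_image_of_injective _ hinj',
    Set.ncard_image_of_injective _ hinj'] at h
  have h1 : Box F (1 / 2) = {0} := by
    ext a
    rw [Set.mem_singleton_iff]
    constructor
    · intro ha
      by_contra h0
      obtain ⟨σ, hσ⟩ := exists_conjugate_one_le_norm h0
      have := ha σ
      linarith
    · rintro rfl σ
      simp
  rw [h1, Set.ncard_singleton, Nat.cast_one, mul_one] at h
  refine h.trans ?_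
  have h2 : 1 + 2 * B / (1 / 2) ≤ 5 * B := by
    have : 2 * B / (1 / 2) = 4 * B := by ring
    rw [this]; linarith
  have h3 : (1 : ℝ) ≤ 1 + 2 * B / (1 / 2) := by
    have : 0 ≤ 2 * B / (1 / 2) := by positivity
    linarith
  calc (1 + 2 * B / (1 / 2)) ^ finrank ℝ V ≤ (1 + 2 * B / (1 / 2)) ^ finrank ℚ F :=
        pow_le_pow_right₀ h3 hle
    _ ≤ _ := pow_le_pow_left₀ (by linarith) h2 _

/-- lower bound -/
theorem exists_le_ncard_Box : ∃ c : ℝ, 0 < c ∧ ∀ B : ℝ, 0 ≤ B →
    c * B ^ finrank ℚ F ≤ ((Box F B).ncard : ℝ) := by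
  classical
  obtain ⟨C, hC1, hC⟩ := exists_basis_bound F
  let ι := Free.ChooseBasisIndex ℤ (𝓞 F)
  have hcard : Fintype.card ι = finrank ℚ F := (finrank_eq_card_basis (integralBasis F)).symm
  have hd : 0 < finrank ℚ F := finrank_pos
  set D : ℝ := finrank ℚ F * C with hD
  have hD0 : 0 < D := by positivity
  refine ⟨(1 / D) ^ finrank ℚ F, by positivity, fun B hB => ?_⟩
  set m : ℕ := ⌊B / D⌋₊ with hm
  let g : (ι → Fin (m + 1)) → 𝓞 F := fun k => ∑ i, ((k i : ℕ) : ℤ) • RingOfIntegers.basis F i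
  have hg : Function.Injective g := by
    intro k k' h
    have h1 : ∀ i, (((k i : ℕ) : ℤ)) = (((k' i : ℕ) : ℤ)) := by
      intro i
      have e1 := congrArg (fun a => (RingOfIntegers.basis F).repr a i) h
      simp only [g] at e1
      have e2 := congrFun ((RingOfIntegers.basis F).repr_sum_self (fun i => ((k i : ℕ) : ℤ))) i
      have e3 := congrFun ((RingOfIntegers.basis F).repr_sum_self (fun i => ((k' i : ℕ) : ℤ))) i
      rw [← e2, ← e3]
      exact e1
    funext i
    apply Fin.ext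
    exact_mod_cast h1 i
  have hmem : Set.range g ⊆ Box F B := by
    rintro _ ⟨k, rfl⟩ σ
    have h1 : ((g k : 𝓞 F) : F) = ∑ i, ((k i : ℕ) : F) * integralBasis F i := by
      simp [g, integralBasis_apply]
    rw [h1, map_sum]
    refine (norm_sum_le _ _).trans ?_
    have h2 : ∀ i ∈ (Finset.univ : Finset ι), ‖σ (((k i : ℕ) : F) * integralBasis F i)‖ ≤ m * C := by
      intro i _
      rw [map_mul, map_natCast, norm_mul, Complex.norm_natCast]
      have : ((k i : ℕ) : ℝ) ≤ m := by exact_mod_cast Nat.lt_succ_iff.1 (k i).2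
      exact mul_le_mul this (hC i σ) (norm_nonneg _) (by positivity)
    refine (Finset.sum_le_sum h2).trans ?_
    rw [Finset.sum_const, Finset.card_univ, hcard, nsmul_eq_mul]
    have h3 : (m : ℝ) ≤ B / D := Nat.floor_le (by positivity)
    calc (finrank ℚ F : ℝ) * (m * C) = m * D := by rw [hD]; ring
      _ ≤ B / D * D := mul_le_mul_of_nonneg_right h3 hD0.le
      _ = B := by field_simp
  have h4 : (m + 1) ^ finrank ℚ F ≤ (Box F B).ncard := by
    have h5 := Set.ncard_le_ncard hmem (finite_Box F B)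
    rw [← Set.image_univ, Set.ncard_image_of_injective _ hg, Set.ncard_univ, Nat.card_eq_fintype_card,
      Fintype.card_fun, Fintype.card_fin, hcard] at h5
    exact h5
  have h6 : B / D ≤ ((m + 1 : ℕ) : ℝ) := by
    push_cast
    exact (Nat.lt_floor_add_one _).le
  calc (1 / D) ^ finrank ℚ F * B ^ finrank ℚ F = (B / D) ^ finrank ℚ F := by
        rw [← mul_pow]; congr 1; ring
    _ ≤ ((m + 1 : ℕ) : ℝ) ^ finrank ℚ F := pow_le_pow_left₀ (by positivity) h6 _
    _ ≤ _ := by exact_mod_cast h4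

end Pool.Agent.Helper313LB
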