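import Pool.Agent.Helper313LB.Nf

/-!
# Small generators of extensions of prime degree
-/

set_option autoImplicit false
set_option linter.unusedSectionVars false

open Module NumberField IntermediateField Polynomial

namespace Pool.Agent.Helper313LB

variable (F Ω : Type*) [Field F] [NumberField F] [Field Ω] [CharZero Ω] [Algebra F Ω]

/-- The algebraic integers `α` of degree `p` over `F`, of trace zero to `F`, all of whose conjugates
over `ℚ` have absolute value at most `R`. -/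
def S (p : ℕ) (R : ℝ) : Set Ω :=
  {α | IsIntegral ℤ α ∧ (minpoly F α).natDegree = p ∧ (minpoly F α).nextCoeff = 0 ∧
    ∀ z ∈ (minpoly ℚ α).rootSet ℂ, ‖z‖ ≤ R}

variable {F Ω}

theorem nf_of_fd (L : IntermediateField F Ω) [FiniteDimensional F L] : NumberField L where
  to_charZero := charZero_of_injective_algebraMap (algebraMap F L).injective
  to_finiteDimensional := by
    have : IsScalarTower ℚ F L := IsScalarTower.of_algebraMap_eq' (Subsingleton.elim _ _)
    exact FiniteDimensional.trans ℚ F L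

theorem fd_of_finrank {p : ℕ} (hp : p.Prime) {L : IntermediateField F Ω} (h : finrank F L = p) :
    FiniteDimensional F L := FiniteDimensional.of_finrank_pos (by rw [h]; exact hp.pos)

section
variable {p : ℕ} (hp : p.Prime) (L : IntermediateField F Ω) (hL : finrank F L = p) [NumberField L]
include hp hL

theorem adjoin_eq_top_of_ne {x : L} (hx : Algebra.trace F L x = 0) (hx0 : x ≠ 0) :
    F⟮x⟯ = (⊤ : IntermediateField F L) := by
  have hs : IsSimpleOrder (IntermediateField F L) :=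
    isSimpleOrder_of_finrank_prime F L (by rw [hL]; exact hp)
  rcases hs.eq_bot_or_eq_top F⟮x⟯ with h | h
  · exfalso
    rw [adjoin_simple_eq_bot_iff, mem_bot] at h
    obtain ⟨c, rfl⟩ := h
    rw [Algebra.trace_algebraMap, hL, nsmul_eq_mul] at hx
    have : (p : F) ≠ 0 := by exact_mod_cast hp.ne_zero
    have hc : c = 0 := (mul_eq_zero.1 hx).resolve_left this
    exact hx0 (by rw [hc, map_zero])
  · exact h

theorem trace_eq_nextCoeff {x : L} (hx : F⟮x⟯ = (⊤ : IntermediateField F L)) :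
    Algebra.trace F L x = -(minpoly F x).nextCoeff := by
  have hfd := fd_of_finrank hp hL
  have hxF : IsIntegral F x := Algebra.IsIntegral.isIntegral x
  have htop : Algebra.adjoin F {x} = ⊤ := by
    rw [← adjoin_simple_toSubalgebra_of_isAlgebraic hxF.isAlgebraic, hx, top_toSubalgebra]
  have h := PowerBasis.trace_gen_eq_nextCoeff_minpoly (PowerBasis.ofAdjoinEqTop hxF htop)
  rw [PowerBasis.ofAdjoinEqTop_gen] at h
  exact h

theorem minpoly_coe (x : L) : minpoly F (x : Ω) = minpoly F x :=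
  minpoly.algebraMap_eq (algebraMap L Ω).injective x

theorem minpoly_coe_rat (x : L) : minpoly ℚ (x : Ω) = minpoly ℚ x := by
  have : IsScalarTower ℚ L Ω := IsScalarTower.of_algebraMap_eq' (Subsingleton.elim _ _)
  exact minpoly.algebraMap_eq (algebraMap L Ω).injective x

theorem isIntegral_coe_iff (x : L) : IsIntegral ℤ (x : Ω) ↔ IsIntegral ℤ x :=
  isIntegral_algebraMap_iff (algebraMap L Ω).injective

theorem house_le_iff (x : L) {R : ℝ} (hR : 0 ≤ R) :
    house x ≤ R ↔ ∀ z ∈ (minpoly ℚ (x : Ω)).rootSet ℂ, ‖z‖ ≤ R := by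
  rw [minpoly_coe_rat hp L hL, house, pi_norm_le_iff_of_nonneg hR,
    ← NumberField.Embeddings.range_eval_eq_rootSet_minpoly L ℂ x]
  constructor
  · rintro h _ ⟨φ, rfl⟩
    exact h φ
  · intro h φ
    exact h _ ⟨φ, rfl⟩

theorem adjoin_coe_eq (x : L) : F⟮(x : Ω)⟯ = L ↔ F⟮x⟯ = (⊤ : IntermediateField F L) := by
  rw [← lift_adjoin_simple]
  constructor
  · intro h
    apply lift_injective L
    rw [h, lift_top]
  · intro h
    rw [h, lift_top]

/-- the elements of `S` which generate `L` -/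
theorem fiber_eq {R : ℝ} (hR : 0 ≤ R) :
    {α | α ∈ S F Ω p R ∧ F⟮α⟯ = L} =
      Subtype.val '' {x : L | (x ∈ W F L ∧ house x ≤ R) ∧ x ≠ 0} := by
  ext α
  constructor
  · rintro ⟨⟨h1, h2, h3, h4⟩, h5⟩
    have hα : α ∈ L := by
      rw [← h5]
      exact mem_adjoin_simple_self F α
    have h6 := (adjoin_coe_eq hp L hL ⟨α, hα⟩).1 h5
    refine ⟨⟨α, hα⟩, ⟨⟨⟨(isIntegral_coe_iff hp L hL _).1 h1, ?_⟩, ?_⟩, ?_⟩, rfl⟩
    · rw [trace_eq_nextCoeff hp L hL h6, ← minpoly_coe hp L hL, h3, neg_zero]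
    · exact (house_le_iff hp L hL _ hR).2 h4
    · intro h
      have h7 : α = 0 := congrArg Subtype.val h
      rw [h7, minpoly.zero, natDegree_X] at h2
      exact hp.one_lt.ne h2
  · rintro ⟨x, ⟨⟨⟨h1, h2⟩, h3⟩, h4⟩, rfl⟩
    have h5 := adjoin_eq_top_of_ne hp L hL h2 h4
    have h6 := (adjoin_coe_eq hp L hL x).2 h5
    refine ⟨⟨(isIntegral_coe_iff hp L hL x).2 h1, ?_, ?_, (house_le_iff hp L hL x hR).1 h3⟩, h6⟩
    · have hfd := fd_of_finrank hp hL
      have h7 : IsIntegral F (x : Ω) :=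
        (Algebra.IsIntegral.isIntegral (R := F) x).map (L.val)
      rw [← IntermediateField.adjoin.finrank h7, h6, hL]
    · rw [trace_eq_nextCoeff hp L hL h5] at h2
      rw [minpoly_coe hp L hL]
      exact neg_eq_zero.1 h2

theorem fiber_ncard {R : ℝ} (hR : 0 ≤ R) :
    {α | α ∈ S F Ω p R ∧ F⟮α⟯ = L}.Finite ∧
    {α | α ∈ S F Ω p R ∧ F⟮α⟯ = L}.ncard + 1 = {x : L | x ∈ W F L ∧ house x ≤ R}.ncard := by
  have hf := finite_W F L R
  have h0 : (0 : L) ∈ {x : L | x ∈ W F L ∧ house x ≤ R} := by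
    refine ⟨(W F L).zero_mem, ?_⟩
    rw [house, map_zero, norm_zero]
    exact hR
  have hd : {x : L | (x ∈ W F L ∧ house x ≤ R) ∧ x ≠ 0} =
      {x : L | x ∈ W F L ∧ house x ≤ R} \ {0} := rfl
  rw [fiber_eq hp L hL hR, hd]
  refine ⟨(hf.subset Set.sdiff_subset).image _, ?_⟩
  rw [Set.ncard_image_of_injective _ Subtype.val_injective, Set.ncard_sdiff_singleton_add_one h0 hf]

/-- the elements of `S` which generate `L`, at two scales -/
theorem fiber_two_scales {R ρ : ℝ} (hρ : 0 < ρ) (hR : 0 ≤ R) :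
    ({α | α ∈ S F Ω p R ∧ F⟮α⟯ = L}.ncard : ℝ) ≤
      (1 + 2 * R / ρ) ^ (finrank ℚ F * (p - 1)) *
        (({α | α ∈ S F Ω p ρ ∧ F⟮α⟯ = L}.ncard : ℝ) + 1) := by
  have h1 := (fiber_ncard hp L hL hR).2
  have h2 := (fiber_ncard hp L hL hρ.le).2
  have h3 := W_two_scales F L hρ hR
  rw [← h1, ← h2, hL] at h3
  push_cast at h3
  linarith

end

end Pool.Agent.Helper313LB
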