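import Pool.Agent.Helper313LB.Up

/-!
# The number of small generators: lower bound
-/

set_option autoImplicit false
set_option linter.unusedSectionVars false

open Module NumberField IntermediateField Polynomial

namespace Pool.Agent.Helper313LB

theorem half_sum (m : ℕ) : ∑ j ∈ Finset.range m, (1 / 2 : ℝ) ^ (m + 1 - j) ≤ 1 / 2 := by
  have : ∀ m : ℕ, ∑ j ∈ Finset.range m, (1 / 2 : ℝ) ^ (m + 1 - j) = 1 / 2 * (1 - (1 / 2) ^ m) := by
    intro m
    induction m with
    | zero => simp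
    | succ m ih =>
      rw [Finset.sum_range_succ]
      have h1 : ∑ j ∈ Finset.range m, (1 / 2 : ℝ) ^ (m + 1 + 1 - j) =
          1 / 2 * ∑ j ∈ Finset.range m, (1 / 2 : ℝ) ^ (m + 1 - j) := by
        rw [Finset.mul_sum]
        refine Finset.sum_congr rfl fun j hj => ?_
        rw [Finset.mem_range] at hj
        rw [show m + 1 + 1 - j = (m + 1 - j) + 1 by omega, pow_succ]
        ring
      rw [h1, ih, show m + 1 + 1 - m = 2 by omega, pow_succ]
      ring
  rw [this]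
  have : (0 : ℝ) ≤ (1 / 2) ^ m := by positivity
  linarith

/-- the roots of a polynomial with small coefficients are small -/
theorem root_bound {p : ℕ} (hp : 1 ≤ p) (c : Fin (p - 1) → ℂ) {H : ℝ} (hH : 0 < H)
    (hc : ∀ j : Fin (p - 1), ‖c j‖ ≤ (H / 2) ^ (p - (j : ℕ))) {z : ℂ}
    (hz : (P p c).eval z = 0) : ‖z‖ ≤ H := by
  by_contra hcon
  push Not at hcon
  have hr : 0 < ‖z‖ := hH.trans hcon
  unfold P at hz
  rw [eval_add, eval_pow, eval_X, eval_finsetSum] at hz
  have h1 : z ^ p = -∑ j : Fin (p - 1), (C (c j) * X ^ (j : ℕ)).eval z := eq_neg_of_add_eq_zero_left hz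
  have h2 : ‖z‖ ^ p ≤ ∑ j : Fin (p - 1), ‖z‖ ^ p * (1 / 2) ^ (p - (j : ℕ)) := by
    have h0 : ‖z‖ ^ p ≤ ∑ j : Fin (p - 1), ‖(C (c j) * X ^ (j : ℕ)).eval z‖ := by
      rw [← norm_pow, h1, norm_neg]
      exact norm_sum_le _ _
    refine h0.trans (Finset.sum_le_sum fun j _ => ?_)
    rw [eval_mul, eval_C, eval_pow, eval_X, norm_mul, norm_pow]
    have h3 : (H / 2) ^ (p - (j : ℕ)) ≤ (‖z‖ / 2) ^ (p - (j : ℕ)) :=
      pow_le_pow_left₀ (by positivity) (by linarith) _
    calc ‖c j‖ * ‖z‖ ^ (j : ℕ) ≤ (‖z‖ / 2) ^ (p - (j : ℕ)) * ‖z‖ ^ (j : ℕ) :=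
          mul_le_mul_of_nonneg_right ((hc j).trans h3) (by positivity)
      _ = ‖z‖ ^ ((p - (j : ℕ)) + (j : ℕ)) * (1 / 2) ^ (p - (j : ℕ)) := by
          rw [div_eq_mul_one_div, mul_pow, pow_add]; ring
      _ = _ := by rw [show p - (j : ℕ) + (j : ℕ) = p by have := j.2; omega]
  rw [← Finset.mul_sum] at h2
  obtain ⟨m, rfl⟩ : ∃ m, p = m + 1 := ⟨p - 1, by omega⟩
  have h4 : ∑ j : Fin (m + 1 - 1), (1 / 2 : ℝ) ^ (m + 1 - (j : ℕ)) ≤ 1 / 2 := by
    rw [Fin.sum_univ_eq_sum_range (fun j => (1 / 2 : ℝ) ^ (m + 1 - j)) (m + 1 - 1),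
      show m + 1 - 1 = m by omega]
    exact half_sum m
  have h5 : 0 < ‖z‖ ^ (m + 1) := by positivity
  nlinarith

variable (F Ω : Type*) [Field F] [NumberField F] [Field Ω] [CharZero Ω] [Algebra F Ω]
  [IsAlgClosed Ω]

/-- the roots of small irreducible polynomials are in `S` -/
theorem root_mem_S {p : ℕ} (hp : 1 ≤ p) (a : Fin (p - 1) → 𝓞 F) {H : ℝ} (hH : 0 < H)
    (ha : ∀ j : Fin (p - 1), a j ∈ Box F ((H / 2) ^ (p - (j : ℕ))))
    (hirr : Irreducible (P p fun j => (a j : F))) :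
    ∃ α ∈ S F Ω p H, minpoly F α = P p fun j => (a j : F) := by
  have hsc : IsScalarTower ℚ F Ω := IsScalarTower.of_algebraMap_eq' (Subsingleton.elim _ _)
  have hmon : (P p fun j => (a j : F)).Monic := P_monic _ hp
  obtain ⟨α, hα⟩ := IsAlgClosed.exists_aeval_eq_zero Ω (P p fun j => (a j : F)) (by
    rw [degree_eq_natDegree hmon.ne_zero, P_natDegree _ hp]
    exact_mod_cast (by omega : p ≠ 0))
  have hmin : P p (fun j => (a j : F)) = minpoly F α :=
    minpoly.eq_of_irreducible_of_monic hirr hα hmon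
  have hintF : IsIntegral F α := ⟨_, hmon, hα⟩
  have hint : IsIntegral ℤ α := by
    have h1 : IsIntegral (𝓞 F) α := by
      refine ⟨P p a, P_monic a hp, ?_⟩
      have h2 : (P p a).map (algebraMap (𝓞 F) F) = P p fun j => (a j : F) := P_map a _
      have h3 : (algebraMap (𝓞 F) Ω) = (algebraMap F Ω).comp (algebraMap (𝓞 F) F) :=
        IsScalarTower.algebraMap_eq _ _ _
      rw [h3, ← eval₂_map, h2]
      exact hα
    exact isIntegral_trans α h1
  refine ⟨α, ⟨hint, ?_, ?_, ?_⟩, hmin.symm⟩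
  · rw [← hmin, P_natDegree _ hp]
  · rw [← hmin, P_nextCoeff _ hp]
  · intro z hz
    have hfd : FiniteDimensional F F⟮α⟯ := adjoin.finiteDimensional hintF
    have hnf : NumberField F⟮α⟯ := nf_of_fd F⟮α⟯
    have hsc2 : IsScalarTower ℚ F⟮α⟯ Ω := IsScalarTower.of_algebraMap_eq' (Subsingleton.elim _ _)
    have h1 : minpoly ℚ α = minpoly ℚ (AdjoinSimple.gen F α) := by
      conv_lhs => rw [← AdjoinSimple.algebraMap_gen F α]
      exact minpoly.algebraMap_eq (algebraMap F⟮α⟯ Ω).injective _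
    rw [h1, ← NumberField.Embeddings.range_eval_eq_rootSet_minpoly] at hz
    obtain ⟨φ, hφ⟩ := hz
    have hφ' : φ (AdjoinSimple.gen F α) = z := hφ
    refine root_bound hp (fun j => φ (algebraMap F F⟮α⟯ (a j : F))) hH (fun j => ?_) ?_
    · exact ha j (φ.comp (algebraMap F F⟮α⟯))
    · have h2 : P p (fun j => φ (algebraMap F F⟮α⟯ (a j : F))) =
          (P p fun j => (a j : F)).map (φ.comp (algebraMap F F⟮α⟯)) := by
        rw [P_map]
        rfl
      rw [h2, hmin, eval_map, ← hφ', ← hom_eval₂]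
      have h3 : (minpoly F α).eval₂ (algebraMap F F⟮α⟯) (AdjoinSimple.gen F α) = 0 := by
        have := minpoly.aeval F (AdjoinSimple.gen F α)
        rw [minpoly_gen] at this
        exact this
      rw [h3, map_zero]

/-- the data for Eisenstein polynomials -/
theorem exists_eisenstein_data : ∃ (𝔭 : Ideal (𝓞 F)) (π : 𝓞 F) (q : ℕ), 𝔭.IsPrime ∧ π ∈ 𝔭 ∧
    π ∉ 𝔭 ^ 2 ∧ (q : 𝓞 F) ∈ 𝔭 ∧ 1 ≤ q := by
  obtain ⟨𝔭, h1, h2⟩ := Ring.not_isField_iff_exists_prime.1 (RingOfIntegers.not_isField F)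
  obtain ⟨π, h3, h4⟩ := Ideal.exists_mem_pow_notMem_pow_succ 𝔭 h1 h2.ne_top 1
  rw [pow_one] at h3
  refine ⟨𝔭, π, Ideal.absNorm 𝔭, h2, h3, h4, Ideal.absNorm_mem 𝔭, ?_⟩
  exact Nat.one_le_iff_ne_zero.2 (fun h => h1 (Ideal.absNorm_eq_zero_iff.1 h))

theorem exists_le_ncard_S {p : ℕ} (hp : 2 ≤ p) : ∃ c H₀ : ℝ, 0 < c ∧ 1 ≤ H₀ ∧ ∀ H : ℝ, H₀ ≤ H →
    c * H ^ (finrank ℚ F * ex p) ≤ ((S F Ω p H).ncard : ℝ) := by
  classical
  obtain ⟨𝔭, π, q, hprime, hπ, hπ2, hq, hq1⟩ := exists_eisenstein_data F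
  obtain ⟨c, hc0, hc⟩ := exists_le_ncard_Box F
  obtain ⟨D, hD⟩ : ∃ D : ℝ, ∀ σ : F →+* ℂ, ‖σ (π : F)‖ ≤ D := by
    obtain ⟨D, hD⟩ := (Set.finite_range fun σ : F →+* ℂ => ‖σ (π : F)‖).bddAbove
    exact ⟨D, fun σ => hD ⟨σ, rfl⟩⟩
  have hqR : (1 : ℝ) ≤ q := by exact_mod_cast hq1
  refine ⟨∏ j : Fin (p - 1), (c * (1 / (2 ^ (p - (j : ℕ)) * (2 * (q : ℝ) ^ 2))) ^ finrank ℚ F),
    2 * max 1 (2 * D), Finset.prod_pos fun j _ => by positivity, ?_, ?_⟩
  · have := le_max_left 1 (2 * D)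
    linarith
  intro H hH
  have hH1 : 1 ≤ H / 2 := by
    have := le_max_left 1 (2 * D)
    linarith
  have hH2 : 2 * D ≤ H / 2 := by
    have := le_max_right 1 (2 * D)
    linarith
  have hH0 : 0 < H := by linarith
  let B : Fin (p - 1) → ℝ := fun j => (H / 2) ^ (p - (j : ℕ)) / (2 * (q : ℝ) ^ 2)
  have hB0 : ∀ j, 0 ≤ B j := fun j => by positivity
  let T : Finset (Fin (p - 1) → 𝓞 F) := Fintype.piFinset fun j => (finite_Box F (B j)).toFinset
  let A : (Fin (p - 1) → 𝓞 F) → Fin (p - 1) → 𝓞 F := fun b j =>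
    if (j : ℕ) = 0 then π + (q : 𝓞 F) ^ 2 * b j else (q : 𝓞 F) * b j
  have hq0 : (q : 𝓞 F) ≠ 0 := by
    exact_mod_cast (by omega : q ≠ 0)
  have hAinj : Function.Injective A := by
    intro b b' h
    funext j
    have h1 := congrFun h j
    simp only [A] at h1
    split_ifs at h1 with h2
    · exact mul_left_cancel₀ (pow_ne_zero 2 hq0) (add_left_cancel h1)
    · exact mul_left_cancel₀ hq0 h1
  have hAbox : ∀ b ∈ T, ∀ j : Fin (p - 1), A b j ∈ Box F ((H / 2) ^ (p - (j : ℕ))) := by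
    intro b hb j σ
    have h1 : ‖σ (b j : F)‖ ≤ B j := by
      have := (Fintype.mem_piFinset.1 hb) j
      rw [Set.Finite.mem_toFinset] at this
      exact this σ
    have h2 : (q : ℝ) ^ 2 * ‖σ (b j : F)‖ ≤ (H / 2) ^ (p - (j : ℕ)) / 2 := by
      calc (q : ℝ) ^ 2 * ‖σ (b j : F)‖ ≤ (q : ℝ) ^ 2 * B j :=
            mul_le_mul_of_nonneg_left h1 (by positivity)
        _ = _ := by simp only [B]; field_simp
    have h3 : (0 : ℝ) ≤ (H / 2) ^ (p - (j : ℕ)) := by positivity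
    simp only [A]
    split_ifs with h4
    · have e1 : σ ((π + (q : 𝓞 F) ^ 2 * b j : 𝓞 F) : F) = σ (π : F) + (q : ℂ) ^ 2 * σ (b j : F) := by
        simp
      rw [e1]
      refine (norm_add_le _ _).trans ?_
      rw [norm_mul, norm_pow, Complex.norm_natCast]
      have h5 : ‖σ (π : F)‖ ≤ (H / 2) ^ (p - (j : ℕ)) / 2 := by
        rw [h4, Nat.sub_zero]
        have h6 : H / 2 ≤ (H / 2) ^ p := le_self_pow₀ hH1 (by omega)
        have := hD σ
        linarith
      linarith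
    · have e1 : σ (((q : 𝓞 F) * b j : 𝓞 F) : F) = (q : ℂ) * σ (b j : F) := by
        simp
      rw [e1, norm_mul, Complex.norm_natCast]
      have h5 : (q : ℝ) * ‖σ (b j : F)‖ ≤ (q : ℝ) ^ 2 * ‖σ (b j : F)‖ :=
        mul_le_mul_of_nonneg_right (by nlinarith) (norm_nonneg _)
      linarith
  have hAirr : ∀ b, Irreducible (P p fun j => (A b j : F)) := by
    intro b
    have hmon : (P p (A b)).Monic := P_monic _ (by omega)
    have hdeg : (P p (A b)).natDegree = p := P_natDegree _ (by omega)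
    have hE : (P p (A b)).IsEisensteinAt 𝔭 := by
      refine ⟨?_, ?_, ?_⟩
      · rw [hmon.leadingCoeff]
        exact fun h => hprime.ne_top ((Ideal.eq_top_iff_one 𝔭).2 h)
      · intro n hn
        rw [hdeg] at hn
        rcases Nat.lt_or_ge n (p - 1) with h | h
        · have := P_coeff (A b) ⟨n, h⟩
          rw [show ((⟨n, h⟩ : Fin (p - 1)) : ℕ) = n from rfl] at this
          rw [this]
          simp only [A]
          split_ifs with h4
          · refine 𝔭.add_mem hπ (𝔭.mul_mem_right _ ?_)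
            rw [pow_two]
            exact 𝔭.mul_mem_left _ hq
          · exact 𝔭.mul_mem_right _ hq
        · have : n = p - 1 := by omega
          rw [this, P_coeff_pred _ (by omega)]
          exact 𝔭.zero_mem
      · have := P_coeff (A b) ⟨0, by omega⟩
        rw [show ((⟨0, by omega⟩ : Fin (p - 1)) : ℕ) = 0 from rfl] at this
        rw [this]
        simp only [A, if_true]
        intro h
        apply hπ2
        have h2 : (q : 𝓞 F) ^ 2 * b ⟨0, by omega⟩ ∈ 𝔭 ^ 2 :=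
          Ideal.mul_mem_right _ _ (Ideal.pow_mem_pow hq 2)
        exact (Submodule.add_mem_iff_left _ h2).1 h
    have h1 := hE.irreducible hprime hmon.isPrimitive (by rw [hdeg]; omega)
    have h2 := (hmon.irreducible_iff_irreducible_map_fraction_map (K := F)).1 h1
    rw [P_map] at h2
    exact h2
  have hroot := fun b : T => root_mem_S F Ω (by omega : 1 ≤ p) (A b.1) hH0 (hAbox b.1 b.2)
    (hAirr b.1)
  choose α hα1 hα2 using hroot
  have hαinj : Function.Injective α := by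
    intro b b' h
    have h1 : P p (fun j => (A b.1 j : F)) = P p fun j => (A b'.1 j : F) := by
      rw [← hα2, ← hα2, h]
    have h2 : A b.1 = A b'.1 := by
      funext j
      have := congrArg (fun f => f.coeff (j : ℕ)) h1
      simp only [P_coeff] at this
      exact RingOfIntegers.coe_injective this
    exact Subtype.ext (hAinj h2)
  have hfin := (S_finite_and_card F Ω hp (R := H) (by linarith)).1
  have h1 : T.card ≤ (S F Ω p H).ncard := by
    have h2 : Set.range α ⊆ S F Ω p H := by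
      rintro _ ⟨b, rfl⟩
      exact hα1 b
    have h3 := Set.ncard_le_ncard h2 hfin
    rwa [← Set.image_univ, Set.ncard_image_of_injective _ hαinj, Set.ncard_univ,
      Nat.card_eq_fintype_card, Fintype.card_coe] at h3
  have h4 : ∏ j : Fin (p - 1), (c * B j ^ finrank ℚ F) ≤ (T.card : ℝ) := by
    rw [Fintype.card_piFinset]
    push_cast
    refine Finset.prod_le_prod (fun j _ => by positivity) fun j _ => ?_
    rw [← Set.ncard_eq_toFinset_card _ (finite_Box F (B j))]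
    exact hc _ (hB0 j)
  refine le_trans (le_of_eq ?_) (h4.trans (by exact_mod_cast h1))
  have h5 : H ^ (finrank ℚ F * ex p) = ∏ j : Fin (p - 1), (H ^ (p - (j : ℕ))) ^ finrank ℚ F := by
    rw [Finset.prod_pow, Finset.prod_pow_eq_pow_sum, ← pow_mul, mul_comm]
    rfl
  rw [h5, ← Finset.prod_mul_distrib]
  refine Finset.prod_congr rfl fun j _ => ?_
  simp only [B]
  rw [mul_assoc, ← mul_pow]
  congr 2
  rw [div_pow]
  field_simp

end Pool.Agent.Helper313LB
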