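import Pool.Agent.Helper313LB.Pack

/-!
# The integers of trace zero in a relative extension, at two scales
-/

set_option autoImplicit false
set_option linter.unusedSectionVars false

open Module NumberField

namespace Pool.Agent.Helper313LB

variable (F L : Type*) [Field F] [NumberField F] [Field L] [NumberField L] [Algebra F L]

/-- the integers of `L` whose trace to `F` is zero -/
noncomputable def W : AddSubgroup L where
  carrier := {x | IsIntegral ℤ x ∧ Algebra.trace F L x = 0}
  zero_mem' := ⟨isIntegral_zero, map_zero _⟩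
  add_mem' := by
    rintro a b ⟨h1, h2⟩ ⟨h3, h4⟩
    exact ⟨h1.add h3, by rw [map_add, h2, h4, add_zero]⟩
  neg_mem' := by
    rintro a ⟨h1, h2⟩
    exact ⟨h1.neg, by rw [map_neg, h2, neg_zero]⟩

theorem mem_W {x : L} : x ∈ W F L ↔ IsIntegral ℤ x ∧ Algebra.trace F L x = 0 := Iff.rfl

/-- the real span of the image of the elements of trace zero -/
noncomputable def V : Submodule ℝ ((L →+* ℂ) → ℂ) :=
  Submodule.span ℝ (canonicalEmbedding L '' {x | Algebra.trace F L x = 0})

/-- real spans of images of rational subspaces -/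
theorem finrank_span_le {M E : Type*} [AddCommGroup M] [Module ℚ M] [FiniteDimensional ℚ M]
    [AddCommGroup E] [Module ℝ E] [Module ℚ E] [IsScalarTower ℚ ℝ E] (f : M →ₗ[ℚ] E)
    (U : Submodule ℚ M) :
    FiniteDimensional ℝ (Submodule.span ℝ (f '' (U : Set M))) ∧
      finrank ℝ (Submodule.span ℝ (f '' (U : Set M))) ≤ finrank ℚ U := by
  let b := finBasis ℚ U
  have h : Submodule.span ℝ (f '' (U : Set M)) =
      Submodule.span ℝ (Set.range fun i => f (b i : M)) := by
    apply le_antisymm
    · rw [Submodule.span_le]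
      rintro _ ⟨u, hu, rfl⟩
      have h1 : (⟨u, hu⟩ : U) = ∑ i, b.repr ⟨u, hu⟩ i • b i := (b.sum_repr _).symm
      have h2 : u = ∑ i, b.repr ⟨u, hu⟩ i • (b i : M) := by
        have := congrArg U.subtype h1
        rwa [map_sum, Submodule.subtype_apply] at this
      rw [h2, map_sum]
      refine Submodule.sum_mem _ fun i _ => ?_
      rw [map_smul, ← algebraMap_smul ℝ]
      exact Submodule.smul_mem _ _ (Submodule.subset_span ⟨i, rfl⟩)
    · refine Submodule.span_mono ?_
      rintro _ ⟨i, rfl⟩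
      exact ⟨b i, (b i).2, rfl⟩
  rw [h]
  refine ⟨FiniteDimensional.span_of_finite ℝ (Set.finite_range _), ?_⟩
  refine (finrank_range_le_card (R := ℝ) (fun i => f (b i : M))).trans ?_
  simp

theorem V_finrank : FiniteDimensional ℝ (V F L) ∧
    finrank ℝ (V F L) ≤ finrank ℚ F * (finrank F L - 1) := by
  have : IsScalarTower ℚ F L := IsScalarTower.of_algebraMap_eq' (Subsingleton.elim _ _)
  have hfd : FiniteDimensional F L := Module.Finite.of_restrictScalars_finite ℚ F L
  let f : L →ₗ[ℚ] ((L →+* ℂ) → ℂ) := (canonicalEmbedding L).toRatAlgHom.toLinearMap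
  let U : Submodule ℚ L := (LinearMap.ker (Algebra.trace F L)).restrictScalars ℚ
  have h := finrank_span_le f U
  have hV : V F L = Submodule.span ℝ (f '' (U : Set L)) := rfl
  rw [hV]
  refine ⟨h.1, h.2.trans ?_⟩
  have h1 : finrank ℚ U = finrank ℚ F * finrank F (LinearMap.ker (Algebra.trace F L)) :=
    (finrank_mul_finrank ℚ F (LinearMap.ker (Algebra.trace F L))).symm
  have h2 : finrank F (LinearMap.range (Algebra.trace F L)) +
      finrank F (LinearMap.ker (Algebra.trace F L)) = finrank F L :=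
    LinearMap.finrank_range_add_finrank_ker _
  have h3 : LinearMap.range (Algebra.trace F L) = ⊤ :=
    LinearMap.range_eq_top.2 (Algebra.trace_surjective F L)
  rw [h3, finrank_top, finrank_self] at h2
  rw [h1]
  exact Nat.mul_le_mul_left _ (by omega)

theorem finite_W (R : ℝ) : {x | x ∈ W F L ∧ house x ≤ R}.Finite := by
  refine (Embeddings.finite_of_norm_le L ℂ R).subset ?_
  rintro x ⟨h1, h2⟩
  refine ⟨h1.1, fun φ => ?_⟩
  have := norm_le_pi_norm (canonicalEmbedding L x) φ
  exact this.trans h2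

/-- the number of the integers of trace zero at two scales -/
theorem W_two_scales {R ρ : ℝ} (hρ : 0 < ρ) (hR : 0 ≤ R) :
    ({x | x ∈ W F L ∧ house x ≤ R}.ncard : ℝ) ≤
      (1 + 2 * R / ρ) ^ (finrank ℚ F * (finrank F L - 1)) *
        ({x | x ∈ W F L ∧ house x ≤ ρ}.ncard : ℝ) := by
  obtain ⟨hfd, hle⟩ := V_finrank F L
  have hinj := canonicalEmbedding_injective L
  let G : AddSubgroup ((L →+* ℂ) → ℂ) := (W F L).map (canonicalEmbedding L).toAddMonoidHom
  have key : ∀ r : ℝ, {x | x ∈ G ∧ ‖x‖ ≤ r} =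
      canonicalEmbedding L '' {x | x ∈ W F L ∧ house x ≤ r} := by
    intro r
    ext y
    constructor
    · rintro ⟨⟨x, hx, rfl⟩, h2⟩
      exact ⟨x, ⟨hx, h2⟩, rfl⟩
    · rintro ⟨x, ⟨hx, h2⟩, rfl⟩
      exact ⟨⟨x, hx, rfl⟩, h2⟩
  have hG : (G : Set ((L →+* ℂ) → ℂ)) ⊆ V F L := by
    rintro _ ⟨x, hx, rfl⟩
    exact Submodule.subset_span ⟨x, hx.2, rfl⟩
  have hf : ∀ r : ℝ, {x | x ∈ G ∧ ‖x‖ ≤ r}.Finite := fun r => by
    rw [key]
    exact (finite_W F L r).image _
  have h := card_two_scales (V F L) G hG hρ hR (hf R) (hf ρ)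
  rw [key, key, Set.ncard_image_of_injective _ hinj, Set.ncard_image_of_injective _ hinj] at h
  refine h.trans (mul_le_mul_of_nonneg_right ?_ (by positivity))
  exact pow_le_pow_right₀ (by have : 0 ≤ 2 * R / ρ := by positivity
                              linarith) hle

end Pool.Agent.Helper313LB
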