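import Mathlib

/-!
# Separated points, and points of a discrete subgroup at two scales

`card_pack`: a finite set of points of norm at most `R`, whose distances are at least `ρ`, in a
normed space of dimension `n` has at most `(1 + 2 R / ρ) ^ n` elements.  `card_two_scales`: for an
additive subgroup the number of the points of norm at most `R` is at most `(1 + 2 R / ρ) ^ n` times
the number of the points of norm at most `ρ`.
-/

set_option autoImplicit false

open MeasureTheory Metric Set Module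
open scoped ENNReal

namespace Pool.Agent.Helper313LB

section pack

variable {E : Type*} [NormedAddCommGroup E] [NormedSpace ℝ E] [FiniteDimensional ℝ E]

theorem card_pack (s : Finset E) {R ρ : ℝ} (hρ : 0 < ρ) (hR : 0 ≤ R) (hs : ∀ c ∈ s, ‖c‖ ≤ R)
    (h : ∀ c ∈ s, ∀ d ∈ s, c ≠ d → ρ ≤ ‖c - d‖) :
    (s.card : ℝ) ≤ (1 + 2 * R / ρ) ^ finrank ℝ E := by
  borelize E
  let μ : Measure E := Measure.addHaar
  set δ : ℝ := ρ / 2 with hδ
  set r : ℝ := δ + R with hr
  have δpos : 0 < δ := by positivity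
  have rpos : 0 < r := by positivity
  set A := ⋃ c ∈ s, ball (c : E) δ with hA
  have D : Set.Pairwise (s : Set E) (Function.onFun Disjoint fun c => ball (c : E) δ) := by
    rintro c hc d hd hcd
    apply ball_disjoint_ball
    rw [dist_eq_norm]
    have := h c hc d hd hcd
    linarith
  have A_subset : A ⊆ ball (0 : E) r := by
    refine iUnion₂_subset fun x hx => ?_
    apply ball_subset_ball'
    rw [dist_zero_right, hr]
    have := hs x hx
    linarith
  have I :
    (s.card : ℝ≥0∞) * ENNReal.ofReal (δ ^ finrank ℝ E) * μ (ball 0 1) ≤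
      ENNReal.ofReal (r ^ finrank ℝ E) * μ (ball 0 1) :=
    calc
      (s.card : ℝ≥0∞) * ENNReal.ofReal (δ ^ finrank ℝ E) * μ (ball 0 1) = μ A := by
        rw [hA, measure_biUnion_finset D fun c _ => measurableSet_ball]
        simp only [μ.addHaar_ball_of_pos _ δpos]
        simp only [Finset.sum_const, nsmul_eq_mul, mul_assoc]
      _ ≤ μ (ball (0 : E) r) := measure_mono A_subset
      _ = ENNReal.ofReal (r ^ finrank ℝ E) * μ (ball 0 1) := by
        simp only [μ.addHaar_ball_of_pos _ rpos]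
  have J : (s.card : ℝ≥0∞) * ENNReal.ofReal (δ ^ finrank ℝ E) ≤ ENNReal.ofReal (r ^ finrank ℝ E) :=
    (ENNReal.mul_le_mul_iff_left (measure_ball_pos _ _ zero_lt_one).ne' measure_ball_lt_top.ne).1 I
  have K : (s.card : ℝ) * δ ^ finrank ℝ E ≤ r ^ finrank ℝ E := by
    have := ENNReal.toReal_le_of_le_ofReal (pow_nonneg rpos.le _) J
    rw [ENNReal.toReal_mul, ENNReal.toReal_natCast, ENNReal.toReal_ofReal (by positivity)] at this
    exact this
  have e : 1 + 2 * R / ρ = r / δ := by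
    rw [hr, hδ]
    field_simp
  rw [e, div_pow, le_div_iff₀ (by positivity)]
  exact K

/-- The same for points in a subspace `V` of a space of any dimension. -/
theorem card_pack' {E' : Type*} [NormedAddCommGroup E'] [NormedSpace ℝ E']
    (V : Submodule ℝ E') [FiniteDimensional ℝ V] (s : Finset E') (hV : ∀ c ∈ s, c ∈ V)
    {R ρ : ℝ} (hρ : 0 < ρ) (hR : 0 ≤ R) (hs : ∀ c ∈ s, ‖c‖ ≤ R)
    (h : ∀ c ∈ s, ∀ d ∈ s, c ≠ d → ρ ≤ ‖c - d‖) :
    (s.card : ℝ) ≤ (1 + 2 * R / ρ) ^ finrank ℝ V := by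
  classical
  have hc : (s.subtype (· ∈ V)).card = s.card := by
    rw [Finset.card_subtype, Finset.filter_true_of_mem hV]
  rw [← hc]
  refine card_pack (E := V) (s.subtype (· ∈ V)) hρ hR ?_ ?_
  · intro c hc
    exact hs _ (Finset.mem_subtype.1 hc)
  · intro c hc d hd hcd
    exact h _ (Finset.mem_subtype.1 hc) _ (Finset.mem_subtype.1 hd) (fun h => hcd (Subtype.ext h))

end pack

/-- a maximal separated subset of a finite set -/
theorem exists_sep {E : Type*} [SeminormedAddCommGroup E] (A : Finset E) {ρ : ℝ} (hρ : 0 < ρ) :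
    ∃ S ⊆ A, (∀ c ∈ S, ∀ d ∈ S, c ≠ d → ρ ≤ ‖c - d‖) ∧ ∀ a ∈ A, ∃ c ∈ S, ‖a - c‖ < ρ := by
  classical
  let P : Finset (Finset E) := A.powerset.filter
    fun S => ∀ c ∈ S, ∀ d ∈ S, c ≠ d → ρ ≤ ‖c - d‖
  have hne : P.Nonempty := ⟨∅, by simp [P]⟩
  obtain ⟨S, hS, hmax⟩ := P.exists_max_image Finset.card hne
  rw [Finset.mem_filter, Finset.mem_powerset] at hS
  refine ⟨S, hS.1, hS.2, fun a ha => ?_⟩
  by_contra hcon
  push Not at hcon
  have haS : a ∉ S := fun h => by
    have := hcon a h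
    simp at this
    linarith
  have h1 : insert a S ∈ P := by
    rw [Finset.mem_filter, Finset.mem_powerset]
    refine ⟨Finset.insert_subset ha hS.1, fun c hc d hd hcd => ?_⟩
    rw [Finset.mem_insert] at hc hd
    rcases hc with rfl | hc <;> rcases hd with rfl | hd
    · exact absurd rfl hcd
    · exact hcon d hd
    · rw [norm_sub_rev]
      exact hcon c hc
    · exact hS.2 c hc d hd hcd
  have h2 := hmax _ h1
  rw [Finset.card_insert_of_notMem haS] at h2
  omega

/-- Points of an additive subgroup at two scales. -/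
theorem card_two_scales {E : Type*} [NormedAddCommGroup E] [NormedSpace ℝ E]
    (V : Submodule ℝ E) [FiniteDimensional ℝ V] (G : AddSubgroup E) (hG : (G : Set E) ⊆ V)
    {R ρ : ℝ} (hρ : 0 < ρ) (hR : 0 ≤ R) (hfR : {x | x ∈ G ∧ ‖x‖ ≤ R}.Finite)
    (hfρ : {x | x ∈ G ∧ ‖x‖ ≤ ρ}.Finite) :
    ({x | x ∈ G ∧ ‖x‖ ≤ R}.ncard : ℝ) ≤
      (1 + 2 * R / ρ) ^ finrank ℝ V * ({x | x ∈ G ∧ ‖x‖ ≤ ρ}.ncard : ℝ) := by
  classical
  set A := hfR.toFinset with hA
  set B := hfρ.toFinset with hB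
  have hAm : ∀ x, x ∈ A ↔ x ∈ G ∧ ‖x‖ ≤ R := fun x => by rw [hA, Set.Finite.mem_toFinset]; rfl
  have hBm : ∀ x, x ∈ B ↔ x ∈ G ∧ ‖x‖ ≤ ρ := fun x => by rw [hB, Set.Finite.mem_toFinset]; rfl
  rw [Set.ncard_eq_toFinset_card _ hfR, Set.ncard_eq_toFinset_card _ hfρ, ← hA, ← hB]
  obtain ⟨S, hSA, hsep, hcov⟩ := exists_sep A hρ
  have h1 : (S.card : ℝ) ≤ (1 + 2 * R / ρ) ^ finrank ℝ V :=
    card_pack' V S (fun c hc => hG ((hAm c).1 (hSA hc)).1) hρ hR
      (fun c hc => ((hAm c).1 (hSA hc)).2) hsep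
  have h2 : A.card ≤ S.card * B.card := by
    have hsub : A ⊆ S.biUnion fun c => B.image fun b => c + b := by
      intro a ha
      obtain ⟨c, hc, hlt⟩ := hcov a ha
      rw [Finset.mem_biUnion]
      refine ⟨c, hc, Finset.mem_image.2 ⟨a - c, ?_, by abel⟩⟩
      rw [hBm]
      exact ⟨G.sub_mem ((hAm a).1 ha).1 ((hAm c).1 (hSA hc)).1, hlt.le⟩
    calc A.card ≤ (S.biUnion fun c => B.image fun b => c + b).card := Finset.card_le_card hsub
      _ ≤ ∑ c ∈ S, (B.image fun b => c + b).card := Finset.card_biUnion_le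
      _ ≤ ∑ _c ∈ S, B.card := Finset.sum_le_sum fun c _ => Finset.card_image_le
      _ = S.card * B.card := by rw [Finset.sum_const, smul_eq_mul]
  calc (A.card : ℝ) ≤ (S.card : ℝ) * B.card := by exact_mod_cast h2
    _ ≤ _ := mul_le_mul_of_nonneg_right h1 (by positivity)

end Pool.Agent.Helper313LB
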