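import Pool.Agent.Helper313LB.Low

/-!
# Many extensions of prime degree
-/

set_option autoImplicit false
set_option linter.unusedSectionVars false

open Module NumberField IntermediateField Polynomial Filter Topology

namespace Pool.Agent.Helper313LB

variable (F Ω : Type*) [Field F] [NumberField F] [Field Ω] [CharZero Ω] [Algebra F Ω]

/-- the extensions of degree `p` generated by an element of `S` -/
def Ext (p : ℕ) (H : ℝ) : Set (IntermediateField F Ω) := (fun α => F⟮α⟯) '' S F Ω p H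

variable {F Ω}

theorem Ext_finrank {p : ℕ} {H : ℝ} {L : IntermediateField F Ω} (hL : L ∈ Ext F Ω p H) :
    finrank F L = p := by
  obtain ⟨α, hα, rfl⟩ := hL
  have hint : IsIntegral F α := hα.1.tower_top
  change finrank F F⟮α⟯ = p
  rw [adjoin.finrank hint, hα.2.1]

theorem S_mono {p : ℕ} {R R' : ℝ} (h : R ≤ R') : S F Ω p R ⊆ S F Ω p R' :=
  fun _ hα => ⟨hα.1, hα.2.1, hα.2.2.1, fun z hz => (hα.2.2.2 z hz).trans h⟩

theorem S_le {p : ℕ} (hp : p.Prime) {H ρ : ℝ} (hρ : 1 ≤ ρ) (hH : ρ ≤ H) :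
    ((S F Ω p H).ncard : ℝ) ≤ (1 + 2 * H / ρ) ^ (finrank ℚ F * (p - 1)) *
      (((S F Ω p ρ).ncard : ℝ) + ((Ext F Ω p H).ncard : ℝ)) := by
  classical
  have hf := (S_finite_and_card F Ω hp.two_le (R := H) (hρ.trans hH)).1
  have hfρ := (S_finite_and_card F Ω hp.two_le (R := ρ) hρ).1
  have hfE : (Ext F Ω p H).Finite := hf.image _
  set A := hf.toFinset with hA
  set Aρ := hfρ.toFinset with hAρ
  set E := hfE.toFinset with hE
  have e1 : (S F Ω p H).ncard = A.card := Set.ncard_eq_toFinset_card _ hf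
  have e2 : (S F Ω p ρ).ncard = Aρ.card := Set.ncard_eq_toFinset_card _ hfρ
  have e3 : (Ext F Ω p H).ncard = E.card := Set.ncard_eq_toFinset_card _ hfE
  have hmA : ∀ α, α ∈ A ↔ α ∈ S F Ω p H := fun α => by rw [hA, Set.Finite.mem_toFinset]
  have hmAρ : ∀ α, α ∈ Aρ ↔ α ∈ S F Ω p ρ := fun α => by rw [hAρ, Set.Finite.mem_toFinset]
  have hmE : ∀ L, L ∈ E ↔ L ∈ Ext F Ω p H := fun α => by rw [hE, Set.Finite.mem_toFinset]
  have h1 : A.card = ∑ L ∈ E, (A.filter fun α => F⟮α⟯ = L).card :=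
    Finset.card_eq_sum_card_fiberwise (fun α hα => by
      rw [Finset.mem_coe, hmE]
      exact ⟨α, (hmA α).1 (Finset.mem_coe.1 hα), rfl⟩)
  have h2 : Aρ.card = ∑ L ∈ E, (Aρ.filter fun α => F⟮α⟯ = L).card :=
    Finset.card_eq_sum_card_fiberwise (fun α hα => by
      rw [Finset.mem_coe, hmE]
      exact ⟨α, S_mono hH ((hmAρ α).1 (Finset.mem_coe.1 hα)), rfl⟩)
  have h3 : ∀ L ∈ E, ((A.filter fun α => F⟮α⟯ = L).card : ℝ) ≤
      (1 + 2 * H / ρ) ^ (finrank ℚ F * (p - 1)) *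
        (((Aρ.filter fun α => F⟮α⟯ = L).card : ℝ) + 1) := by
    intro L hL
    have hfin := Ext_finrank ((hmE L).1 hL)
    have hfd := fd_of_finrank hp hfin
    have hnf := nf_of_fd L
    have h4 := fiber_two_scales hp L hfin (R := H) (ρ := ρ) (by linarith) (by linarith)
    have h5 : {α | α ∈ S F Ω p H ∧ F⟮α⟯ = L} = ((A.filter fun α => F⟮α⟯ = L : Finset Ω) : Set Ω) := by
      ext α
      simp [hmA]
    have h6 : {α | α ∈ S F Ω p ρ ∧ F⟮α⟯ = L} =
        ((Aρ.filter fun α => F⟮α⟯ = L : Finset Ω) : Set Ω) := by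
      ext α
      simp [hmAρ]
    rw [h5, h6, Set.ncard_coe_finset, Set.ncard_coe_finset] at h4
    exact h4
  rw [e1, e2, e3, h1, h2]
  push_cast
  calc ∑ L ∈ E, ((A.filter fun α => F⟮α⟯ = L).card : ℝ)
      ≤ ∑ L ∈ E, (1 + 2 * H / ρ) ^ (finrank ℚ F * (p - 1)) *
        (((Aρ.filter fun α => F⟮α⟯ = L).card : ℝ) + 1) := Finset.sum_le_sum h3
    _ = _ := by
      rw [← Finset.mul_sum, Finset.sum_add_distrib, Finset.sum_const, nsmul_eq_mul, mul_one]

theorem exists_le_ncard_Ext [IsAlgClosed Ω] {p : ℕ} (hp : p.Prime) :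
    ∃ c H₀ : ℝ, 0 < c ∧ 1 ≤ H₀ ∧ ∀ H : ℝ, H₀ ≤ H →
      (Ext F Ω p H).Finite ∧ c * H ^ (finrank ℚ F * ex p) ≤ ((Ext F Ω p H).ncard : ℝ) := by
  obtain ⟨c₁, H₁, hc₁, hH₁, hlow⟩ := exists_le_ncard_S F Ω hp.two_le
  set d := finrank ℚ F with hd
  have hd0 : 0 < d := finrank_pos
  set C₂ : ℝ := p * (5 * 2 ^ p) ^ (d * (p - 1)) with hC₂
  have hC₂0 : 0 < C₂ := by
    have : (0 : ℝ) < p := by exact_mod_cast hp.pos
    positivity
  have hex : d * (p - 1) < d * ex p := by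
    have h1 := two_mul_ex hp.two_le
    have h2 := hp.two_le
    have h3 : p - 1 < ex p := by
      have : (p - 1) * 4 ≤ (p - 1) * (p + 2) := Nat.mul_le_mul_left _ (by omega)
      omega
    exact Nat.mul_lt_mul_of_pos_left h3 hd0
  -- choice of the ratio of the scales
  obtain ⟨t, ht1, ht⟩ : ∃ t : ℝ, 1 ≤ t ∧ 3 ^ (d * (p - 1)) * C₂ * 2 ≤ c₁ * t := by
    refine ⟨max 1 (3 ^ (d * (p - 1)) * C₂ * 2 / c₁), le_max_left _ _, ?_⟩
    have := le_max_right 1 (3 ^ (d * (p - 1)) * C₂ * 2 / c₁)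
    rw [div_le_iff₀ hc₁] at this
    linarith
  have ht0 : 0 < t := by linarith
  refine ⟨c₁ / (2 * (1 + 2 * t) ^ (d * (p - 1))), t * H₁, by positivity, ?_, fun H hH => ?_⟩
  · exact one_le_mul_of_one_le_of_one_le ht1 hH₁
  have hHt : H₁ ≤ H / t := by
    rw [le_div_iff₀ ht0]
    linarith
  have hρ : 1 ≤ H / t := hH₁.trans hHt
  have hHH : H / t ≤ H := div_le_self (by nlinarith) ht1
  have hH0 : 0 < H := by nlinarith
  have hf := (S_finite_and_card F Ω hp.two_le (R := H) (hρ.trans hHH)).1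
  refine ⟨hf.image _, ?_⟩
  have h1 := S_le (F := F) (Ω := Ω) hp hρ hHH
  have h2 := hlow H (hHt.trans hHH)
  have h3 := (S_finite_and_card F Ω hp.two_le (R := H / t) hρ).2
  rw [← hC₂, ← hd] at h3
  rw [← hd] at h1
  have e1 : 1 + 2 * H / (H / t) = 1 + 2 * t := by field_simp
  rw [e1] at h1
  set Y : ℝ := H ^ (d * ex p) with hY
  have hY0 : 0 < Y := by positivity
  set M : ℝ := (1 + 2 * t) ^ (d * (p - 1)) with hM
  have hM0 : 0 < M := by positivity
  have h4 : (H / t) ^ (d * ex p) = Y / t ^ (d * ex p) := by rw [div_pow]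
  rw [h4] at h3
  have h5 : M ≤ 3 ^ (d * (p - 1)) * t ^ (d * (p - 1)) := by
    rw [hM, ← mul_pow]
    exact pow_le_pow_left₀ (by positivity) (by linarith) _
  have h6 : M * (C₂ * (Y / t ^ (d * ex p))) ≤ c₁ / 2 * Y := by
    have h7 : t ^ (d * (p - 1)) * t ≤ t ^ (d * ex p) := by
      rw [← pow_succ]
      exact pow_le_pow_right₀ ht1 hex
    have h8 : 0 < t ^ (d * ex p) := by positivity
    rw [mul_div_assoc', mul_div_assoc', div_le_iff₀ h8]
    calc M * (C₂ * Y) ≤ (3 ^ (d * (p - 1)) * t ^ (d * (p - 1))) * (C₂ * Y) :=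
          mul_le_mul_of_nonneg_right h5 (by positivity)
      _ = (3 ^ (d * (p - 1)) * C₂ * 2) * (t ^ (d * (p - 1)) * Y / 2) := by ring
      _ ≤ (c₁ * t) * (t ^ (d * (p - 1)) * Y / 2) := mul_le_mul_of_nonneg_right ht (by positivity)
      _ = c₁ / 2 * Y * (t ^ (d * (p - 1)) * t) := by ring
      _ ≤ c₁ / 2 * Y * t ^ (d * ex p) := mul_le_mul_of_nonneg_left h7 (by positivity)
  have h9 : c₁ * Y ≤ c₁ / 2 * Y + M * ((Ext F Ω p H).ncard : ℝ) := by
    calc c₁ * Y ≤ ((S F Ω p H).ncard : ℝ) := h2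
      _ ≤ M * (((S F Ω p (H / t)).ncard : ℝ) + ((Ext F Ω p H).ncard : ℝ)) := h1
      _ ≤ M * (C₂ * (Y / t ^ (d * ex p)) + ((Ext F Ω p H).ncard : ℝ)) :=
          mul_le_mul_of_nonneg_left (by linarith) hM0.le
      _ = M * (C₂ * (Y / t ^ (d * ex p))) + M * ((Ext F Ω p H).ncard : ℝ) := by ring
      _ ≤ _ := by linarith
  rw [div_mul_eq_mul_div, div_le_iff₀ (by positivity)]
  nlinarith

theorem Ext_discr (F : Type*) [Field F] [NumberField F] (Ω : Type*) [Field Ω] [CharZero Ω]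
    [Algebra F Ω] (p : ℕ) : ∃ K : ℝ, 0 < K ∧ ∀ H : ℝ, 1 ≤ H → ∀ L ∈ Ext F Ω p H,
      ∃ h : NumberField L, ((|@discr L _ h| : ℤ) : ℝ) ≤ K * H ^ (finrank ℚ F * (p * (p - 1))) := by
  obtain ⟨K, hK, h⟩ := discr_le_of_generator F p
  refine ⟨K, hK, fun H hH L hL => ?_⟩
  have hfin := Ext_finrank hL
  obtain ⟨α, hα, rfl⟩ := hL
  have hint : IsIntegral F α := hα.1.tower_top
  change finrank F F⟮α⟯ = p at hfin
  have hfd : FiniteDimensional F F⟮α⟯ := adjoin.finiteDimensional hint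
  have hnf : NumberField F⟮α⟯ := nf_of_fd F⟮α⟯
  have hsc2 : IsScalarTower ℚ F⟮α⟯ Ω := IsScalarTower.of_algebraMap_eq' (Subsingleton.elim _ _)
  refine ⟨hnf, h F⟮α⟯ hfin (AdjoinSimple.gen F α) ?_ ?_ H hH ?_⟩
  · refine (isIntegral_algebraMap_iff (algebraMap F⟮α⟯ Ω).injective).1 ?_
    rw [AdjoinSimple.algebraMap_gen]
    exact hα.1
  · have hg : IsIntegral F (AdjoinSimple.gen F α) := Algebra.IsIntegral.isIntegral _
    rw [← adjoin_simple_toSubalgebra_of_isAlgebraic hg.isAlgebraic]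
    have h1 : F⟮AdjoinSimple.gen F α⟯ = (⊤ : IntermediateField F F⟮α⟯) := by
      apply lift_injective F⟮α⟯
      rw [lift_adjoin_simple, IntermediateField.lift_top, AdjoinSimple.coe_gen]
    rw [h1, top_toSubalgebra]
  · intro σ
    have h1 : minpoly ℚ α = minpoly ℚ (AdjoinSimple.gen F α) := by
      conv_lhs => rw [← AdjoinSimple.algebraMap_gen F α]
      exact minpoly.algebraMap_eq (algebraMap F⟮α⟯ Ω).injective _
    apply hα.2.2.2
    rw [h1, ← NumberField.Embeddings.range_eval_eq_rootSet_minpoly]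
    exact ⟨σ, rfl⟩

end Pool.Agent.Helper313LB
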