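import Pool.Agent.Helper313LB.Prime

/-!
# Many extensions of any degree
-/

set_option autoImplicit false
set_option linter.unusedSectionVars false

open Module NumberField IntermediateField Polynomial Filter Topology

namespace Pool.Agent.Helper313LB

section finite

variable (K Ω : Type*) [Field K] [NumberField K] [Field Ω] [CharZero Ω] [Algebra K Ω]

/-- the extensions of `K` in `Ω` of degree `n` with `|d_L| ≤ X` -/
def Fld (n : ℕ) (X : ℝ) : Set (IntermediateField K Ω) :=
  {L | finrank K L = n ∧ ∃ h : NumberField L, ((|@discr L _ h| : ℤ) : ℝ) ≤ X}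

theorem finite_Fld {n : ℕ} (X : ℝ) : (Fld K Ω n X).Finite := by
  have hsc : IsScalarTower ℚ K Ω := IsScalarTower.of_algebraMap_eq' (Subsingleton.elim _ _)
  let g : IntermediateField K Ω → IntermediateField ℚ Ω := fun L => L.restrictScalars ℚ
  have hg : Function.Injective g := restrictScalars_injective ℚ
  have hfin := (NumberField.finite_of_discr_bdd Ω ⌊X⌋₊).image Subtype.val
  refine Set.Finite.of_finite_image (f := g) (hfin.subset ?_) hg.injOn
  rintro _ ⟨L, ⟨-, hnf, h2⟩, rfl⟩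
  let e : L ≃+* (g L) :=
    { toFun := fun x => ⟨x.1, x.2⟩
      invFun := fun x => ⟨x.1, x.2⟩
      left_inv := fun _ => rfl
      right_inv := fun _ => rfl
      map_mul' := fun _ _ => rfl
      map_add' := fun _ _ => rfl }
  have hfd : FiniteDimensional ℚ (g L) := by
    have e' : L ≃ₗ[ℚ] (g L) := (AlgEquiv.ofRingEquiv (f := e) fun _ => by simp).toLinearEquiv
    exact Module.Finite.equiv e'
  refine ⟨⟨g L, hfd⟩, ?_, rfl⟩
  have hnf' : NumberField (g L) := @NumberField.mk _ _ inferInstance hfd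
  change |discr (g L)| ≤ (⌊X⌋₊ : ℤ)
  rw [← discr_eq_discr_of_ringEquiv L e]
  have h3 : ((|discr L|.toNat : ℕ) : ℝ) ≤ X := by
    have h4 : ((|discr L|.toNat : ℕ) : ℤ) = |discr L| := Int.toNat_of_nonneg (abs_nonneg _)
    have h5 : ((|discr L|.toNat : ℕ) : ℝ) = ((|discr L| : ℤ) : ℝ) := by exact_mod_cast h4
    rw [h5]
    exact h2
  have h6 : |discr L|.toNat ≤ ⌊X⌋₊ := Nat.le_floor h3
  have h4 : ((|discr L|.toNat : ℕ) : ℤ) = |discr L| := Int.toNat_of_nonneg (abs_nonneg _)
  rw [← h4]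
  exact_mod_cast h6

variable {K Ω}

/-- extensions of an intermediate field -/
theorem ncard_Fld_le (F : IntermediateField K Ω) [FiniteDimensional K F] [NumberField F]
    (p : ℕ) (X : ℝ) :
    (Fld F Ω p X).ncard ≤ (Fld K Ω (finrank K F * p) X).ncard := by
  let g : IntermediateField F Ω → IntermediateField K Ω := fun L => L.restrictScalars K
  have hg : Function.Injective g := restrictScalars_injective K
  rw [← Set.ncard_image_of_injective _ hg]
  refine Set.ncard_le_ncard ?_ (finite_Fld K Ω X)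
  rintro _ ⟨L, ⟨h1, hnf, h2⟩, rfl⟩
  refine ⟨?_, hnf, h2⟩
  rw [← h1]
  exact (finrank_mul_finrank K F L).symm

end finite

section prime

variable (F Ω : Type*) [Field F] [NumberField F] [Field Ω] [CharZero Ω] [Algebra F Ω]
  [IsAlgClosed Ω]

theorem prime_lower {p : ℕ} (hp : p.Prime) : ∃ c : ℝ, 0 < c ∧ ∀ᶠ X : ℝ in atTop,
    c * X ^ (1 / 2 + 1 / p : ℝ) ≤ ((Fld F Ω p X).ncard : ℝ) := by
  obtain ⟨c, H₀, hc, hH₀, h1⟩ := exists_le_ncard_Ext (F := F) (Ω := Ω) hp
  obtain ⟨K, hK, h2⟩ := Ext_discr F Ω p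
  set d := finrank ℚ F with hd
  have hd0 : 0 < d := finrank_pos
  have hp2 := hp.two_le
  set m : ℕ := d * (p * (p - 1)) with hm
  have hm0 : m ≠ 0 := by
    have : 0 < p * (p - 1) := Nat.mul_pos hp.pos (by omega)
    positivity
  have hmR : (0 : ℝ) < m := by exact_mod_cast Nat.pos_of_ne_zero hm0
  -- the exponent
  have hexp : ((d * ex p : ℕ) : ℝ) / m = 1 / 2 + 1 / p := by
    have h3 : (2 : ℝ) * ex p = ((p : ℝ) - 1) * (p + 2) := by
      have := two_mul_ex hp2
      have h4 : ((2 * ex p : ℕ) : ℝ) = (((p - 1) * (p + 2) : ℕ) : ℝ) := by rw [this]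
      push_cast [Nat.cast_sub (by omega : 1 ≤ p)] at h4
      exact h4
    have hp0 : (0 : ℝ) < p := by exact_mod_cast hp.pos
    have hp1 : (0 : ℝ) < (p : ℝ) - 1 := by
      have : (2 : ℝ) ≤ p := by exact_mod_cast hp2
      linarith
    have hdR : (0 : ℝ) < d := by exact_mod_cast hd0
    rw [hm]
    push_cast [Nat.cast_sub (by omega : 1 ≤ p)]
    rw [div_eq_iff (by positivity)]
    have h5 : (ex p : ℝ) = ((p : ℝ) - 1) * (p + 2) / 2 := by linarith
    rw [h5]
    field_simp
  have hK' : (0 : ℝ) < K := hK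
  refine ⟨c * (1 / K) ^ (1 / 2 + 1 / p : ℝ), by positivity, ?_⟩
  filter_upwards [eventually_ge_atTop (K * H₀ ^ m)] with X hX
  have hX0 : 0 < X := lt_of_lt_of_le (by positivity) hX
  set H : ℝ := (X / K) ^ (1 / (m : ℝ)) with hH
  have hHm : H ^ m = X / K := by
    rw [hH, ← Real.rpow_natCast, ← Real.rpow_mul (by positivity), one_div_mul_cancel hmR.ne',
      Real.rpow_one]
  have hHH₀ : H₀ ≤ H := by
    have h3 : H₀ ^ m ≤ H ^ m := by
      rw [hHm, le_div_iff₀ hK]
      linarith
    exact le_of_pow_le_pow_left₀ hm0 (by positivity) h3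
  obtain ⟨hfin, h4⟩ := h1 H hHH₀
  have h5 : H ^ (d * ex p) = (1 / K) ^ (1 / 2 + 1 / p : ℝ) * X ^ (1 / 2 + 1 / p : ℝ) := by
    rw [← Real.mul_rpow (by positivity) (by positivity), ← hexp, hH, ← Real.rpow_natCast,
      ← Real.rpow_mul (by positivity)]
    congr 1
    · ring
    · ring
  rw [mul_assoc, ← h5]
  refine h4.trans ?_
  have h6 : Ext F Ω p H ⊆ Fld F Ω p X := by
    intro L hL
    obtain ⟨hnf, h7⟩ := h2 H (hH₀.trans hHH₀) L hL
    refine ⟨Ext_finrank hL, hnf, h7.trans (le_of_eq ?_)⟩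
    rw [hHm]
    field_simp
  exact_mod_cast Set.ncard_le_ncard h6 (finite_Fld F Ω X)

/-- extensions of prime degree exist -/
theorem exists_prime_ext {p : ℕ} (hp : p.Prime) : ∃ L : IntermediateField F Ω, finrank F L = p := by
  obtain ⟨c, hc, h⟩ := prime_lower F Ω hp
  obtain ⟨X, h1, h2⟩ := (h.and (eventually_gt_atTop 0)).exists
  have h3 : (0 : ℝ) < (Fld F Ω p X).ncard := lt_of_lt_of_le (by positivity) h1
  have h4 : (Fld F Ω p X).ncard ≠ 0 := by
    intro h5
    rw [h5] at h3
    simp at h3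
  obtain ⟨L, hL⟩ := Set.nonempty_of_ncard_ne_zero h4
  exact ⟨L, hL.1⟩

end prime

section tower

variable (K Ω : Type*) [Field K] [NumberField K] [Field Ω] [CharZero Ω] [Algebra K Ω]
  [IsAlgClosed Ω]

/-- extensions of every degree exist -/
theorem exists_ext (m : ℕ) (hm : m ≠ 0) : ∃ F : IntermediateField K Ω, finrank K F = m := by
  induction m using Nat.strong_induction_on with
  | _ m ih =>
    rcases Nat.lt_or_ge m 2 with h | h
    · have : m = 1 := by omega
      exact ⟨⊥, by rw [this]; exact IntermediateField.finrank_bot⟩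
    · have hp := Nat.minFac_prime (by omega : m ≠ 1)
      set p := m.minFac with hpdef
      obtain ⟨k, hk⟩ : ∃ k, m = k * p := ⟨m / p, (Nat.div_mul_cancel (Nat.minFac_dvd m)).symm⟩
      have hk0 : k ≠ 0 := by
        rintro rfl
        omega
      have hkm : k < m := by
        have := hp.two_le
        have : 0 < k := Nat.pos_of_ne_zero hk0
        nlinarith
      obtain ⟨F, hF⟩ := ih k hkm hk0
      have hfd : FiniteDimensional K F := FiniteDimensional.of_finrank_pos (by omega)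
      have hnf : NumberField F := nf_of_fd F
      obtain ⟨L, hL⟩ := exists_prime_ext F Ω hp
      refine ⟨L.restrictScalars K, ?_⟩
      rw [hk, ← hF, ← hL]
      exact (finrank_mul_finrank K F L).symm

theorem lower (n : ℕ) (hn : 2 ≤ n) : ∃ c : ℝ, 0 < c ∧ ∀ᶠ X : ℝ in atTop,
    c * X ^ (1 / 2 + 1 / n.minFac : ℝ) ≤ ((Fld K Ω n X).ncard : ℝ) := by
  have hp := Nat.minFac_prime (by omega : n ≠ 1)
  obtain ⟨k, hk⟩ : ∃ k, n = k * n.minFac :=
    ⟨n / n.minFac, (Nat.div_mul_cancel (Nat.minFac_dvd n)).symm⟩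
  have hk0 : k ≠ 0 := by
    rintro rfl
    omega
  obtain ⟨F, hF⟩ := exists_ext K Ω k hk0
  have hfd : FiniteDimensional K F := FiniteDimensional.of_finrank_pos (by omega)
  have hnf : NumberField F := nf_of_fd F
  obtain ⟨c, hc, h⟩ := prime_lower F Ω hp
  refine ⟨c, hc, ?_⟩
  filter_upwards [h] with X hX
  refine hX.trans ?_
  have h1 := ncard_Fld_le (K := K) (Ω := Ω) F n.minFac X
  rw [hF, ← hk] at h1
  exact_mod_cast h1

end tower

end Pool.Agent.Helper313LB
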