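import Pool.Agent.Helper313LB.Fib
import Pool.Agent.Helper313LB.Box

/-!
# The number of small generators: upper bound
-/

set_option autoImplicit false
set_option linter.unusedSectionVars false

open Module NumberField IntermediateField Polynomial

namespace Pool.Agent.Helper313LB

/-- `X ^ p + ∑_{j < p - 1} a_j X ^ j` -/
noncomputable def P {R : Type*} [CommRing R] (p : ℕ) (a : Fin (p - 1) → R) : R[X] :=
  X ^ p + ∑ j : Fin (p - 1), C (a j) * X ^ (j : ℕ)

section P

variable {R : Type*} [CommRing R] [Nontrivial R] {p : ℕ} (a : Fin (p - 1) → R)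

theorem P_low_degree (_ : 1 ≤ p) :
    (∑ j : Fin (p - 1), C (a j) * X ^ (j : ℕ)).degree < ((p - 1 : ℕ) : WithBot ℕ) := by
  refine (degree_sum_fin_lt a)

theorem P_monic (hp : 1 ≤ p) : (P p a).Monic := by
  unfold P
  refine monic_X_pow_add ?_
  refine (P_low_degree a hp).trans_le ?_
  exact_mod_cast Nat.sub_le p 1

theorem P_natDegree (hp : 1 ≤ p) : (P p a).natDegree = p := by
  have h := P_low_degree a hp
  unfold P
  rw [natDegree_add_eq_left_of_degree_lt, natDegree_X_pow]
  rw [degree_X_pow]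
  refine h.trans_le ?_
  exact_mod_cast Nat.sub_le p 1

theorem P_coeff (j : Fin (p - 1)) : (P p a).coeff j = a j := by
  unfold P
  rw [coeff_add, coeff_X_pow, if_neg (by have := j.2; omega), zero_add, finsetSum_coeff]
  simp only [coeff_C_mul, coeff_X_pow]
  rw [Finset.sum_eq_single j]
  · simp
  · intro b _ hb
    rw [if_neg (fun h => hb (Fin.ext h.symm)), mul_zero]
  · intro h
    exact absurd (Finset.mem_univ j) h

theorem P_coeff_pred (hp : 1 ≤ p) : (P p a).coeff (p - 1) = 0 := by
  unfold P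
  rw [coeff_add, coeff_X_pow, if_neg (by omega), zero_add]
  exact coeff_eq_zero_of_degree_lt (P_low_degree a hp)

theorem P_nextCoeff (hp : 1 ≤ p) : (P p a).nextCoeff = 0 := by
  rw [nextCoeff_of_natDegree_pos (by rw [P_natDegree a hp]; omega), P_natDegree a hp,
    P_coeff_pred a hp]

theorem P_map {R' : Type*} [CommRing R'] (f : R →+* R') : (P p a).map f = P p (f ∘ a) := by
  unfold P
  simp [Polynomial.map_sum]

theorem eq_P {f : R[X]} (hp : 1 ≤ p) (hf : f.Monic) (hd : f.natDegree = p)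
    (hn : f.nextCoeff = 0) : f = P p fun j => f.coeff j := by
  rw [nextCoeff_of_natDegree_pos (by omega), hd] at hn
  conv_lhs => rw [f.as_sum_range_C_mul_X_pow, hd]
  obtain ⟨m, rfl⟩ : ∃ m, p = m + 1 := ⟨p - 1, by omega⟩
  rw [Finset.sum_range_succ]
  have h1 : f.coeff (m + 1) = 1 := by rw [← hd]; exact hf
  rw [show m + 1 - 1 = m by omega] at hn
  unfold P
  rw [Finset.sum_range_succ, hn, h1, C_0, C_1, zero_mul, one_mul, add_zero, add_comm]
  congr 1
  exact (Fin.sum_univ_eq_sum_range (fun j => C (f.coeff j) * X ^ j) m).symm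

end P

/-- the exponent `∑_{2 ≤ i ≤ p} i` -/
def ex (p : ℕ) : ℕ := ∑ j : Fin (p - 1), (p - (j : ℕ))

theorem two_mul_ex {p : ℕ} (hp : 2 ≤ p) : 2 * ex p = (p - 1) * (p + 2) := by
  unfold ex
  rw [Fin.sum_univ_eq_sum_range (fun j => p - j) (p - 1)]
  obtain ⟨m, rfl⟩ : ∃ m, p = m + 1 := ⟨p - 1, by omega⟩
  rw [show m + 1 - 1 = m by omega]
  have : ∀ k : ℕ, k ≤ m → 2 * ∑ j ∈ Finset.range k, (m + 1 - j) + k * k = k * (2 * m + 3) := by
    intro k
    induction k with
    | zero => intro _; simp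
    | succ k ih =>
      intro hk
      have h1 := ih (by omega)
      rw [Finset.sum_range_succ]
      obtain ⟨r, hr⟩ : ∃ r, m + 1 - k = r ∧ m + 1 = k + r := ⟨m + 1 - k, rfl, by omega⟩
      rw [hr.1]
      have h2 := hr.2
      nlinarith
  have h := this m le_rfl
  nlinarith

variable (F Ω : Type*) [Field F] [NumberField F] [Field Ω] [CharZero Ω] [Algebra F Ω]

theorem S_coeff {p : ℕ} {R : ℝ} {α : Ω} (hα : α ∈ S F Ω p R) (j : ℕ) :
    ∃ a ∈ Box F (R ^ (p - j) * 2 ^ p), (a : F) = (minpoly F α).coeff j := by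
  obtain ⟨h1, h2, h3, h4⟩ := hα
  have hsc : IsScalarTower ℚ F Ω := IsScalarTower.of_algebraMap_eq' (Subsingleton.elim _ _)
  have hint : IsIntegral F α := h1.tower_top
  have hdvd : minpoly F α ∣ (minpoly ℤ α).map (algebraMap ℤ F) := by
    apply minpoly.dvd
    rw [aeval_map_algebraMap]
    exact minpoly.aeval ℤ α
  have hi : IsIntegral ℤ ((minpoly F α).coeff j) :=
    isIntegral_coeff_of_dvd _ _ (minpoly.monic h1) (minpoly.monic hint) hdvd j
  refine ⟨⟨(minpoly F α).coeff j, hi⟩, fun σ => ?_, rfl⟩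
  change ‖σ ((minpoly F α).coeff j)‖ ≤ _
  have hroots : ∀ z ∈ ((minpoly F α).map σ).roots, ‖z‖ ≤ R := by
    intro z hz
    apply h4
    have hz1 : ((minpoly F α).map σ).eval z = 0 := (mem_roots'.1 hz).2
    have hne : minpoly ℚ α ≠ 0 := minpoly.ne_zero (h1.tower_top)
    rw [mem_rootSet]
    refine ⟨hne, ?_⟩
    obtain ⟨q, hq⟩ := minpoly.dvd_map_of_isScalarTower ℚ F α
    have h5 : (minpoly ℚ α).map (algebraMap ℚ ℂ) = ((minpoly F α).map σ) * q.map σ := by
      rw [← Polynomial.map_mul, ← hq, Polynomial.map_map]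
      congr 1
      exact Subsingleton.elim _ _
    rw [aeval_def, ← eval_map, h5, eval_mul, hz1, zero_mul]
  have h6 := coeff_le_of_roots_le (f := σ) j (minpoly.monic hint) (IsAlgClosed.splits _) hroots
  rw [coeff_map, h2] at h6
  have hne : ((minpoly F α).map σ).natDegree = p := by
    rw [natDegree_map, h2]
  by_cases hp0 : p = 0
  · subst hp0
    exfalso
    have := minpoly.natDegree_pos hint
    omega
  have hR : 0 ≤ R := by
    have hex : ∃ z, z ∈ ((minpoly F α).map σ).roots := by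
      have hdeg : ((minpoly F α).map σ).degree ≠ 0 := by
        rw [degree_eq_natDegree (((minpoly.monic hint).map σ).ne_zero), hne]
        exact_mod_cast hp0
      obtain ⟨z, hz⟩ := IsAlgClosed.exists_root _ hdeg
      exact ⟨z, (mem_roots (((minpoly.monic hint).map σ).ne_zero)).2 hz⟩
    obtain ⟨z, hz⟩ := hex
    exact (norm_nonneg z).trans (hroots z hz)
  refine h6.trans (mul_le_mul_of_nonneg_left ?_ (by positivity))
  exact_mod_cast Nat.choose_le_two_pow p j

theorem S_finite_and_card {p : ℕ} (hp : 2 ≤ p) {R : ℝ} (hR : 1 ≤ R) :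
    (S F Ω p R).Finite ∧ ((S F Ω p R).ncard : ℝ) ≤
      (p * (5 * 2 ^ p) ^ (finrank ℚ F * (p - 1))) * R ^ (finrank ℚ F * ex p) := by
  classical
  let B : Fin (p - 1) → ℝ := fun j => R ^ (p - (j : ℕ)) * 2 ^ p
  let T : Finset (Fin (p - 1) → 𝓞 F) := Fintype.piFinset fun j => (finite_Box F (B j)).toFinset
  let Q : (Fin (p - 1) → 𝓞 F) → F[X] := fun a => P p fun j => (a j : F)
  have hsub : S F Ω p R ⊆ ⋃ a ∈ T, (Q a).rootSet Ω := by
    intro α hα
    have hint : IsIntegral F α := hα.1.tower_top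
    choose a ha1 ha2 using fun j : Fin (p - 1) => S_coeff F Ω hα (j : ℕ)
    rw [Set.mem_iUnion₂]
    refine ⟨a, ?_, ?_⟩
    · rw [Fintype.mem_piFinset]
      intro j
      rw [Set.Finite.mem_toFinset]
      exact ha1 j
    · have h1 : Q a = minpoly F α := by
        rw [eq_P (by omega) (minpoly.monic hint) hα.2.1 hα.2.2.1]
        change P p (fun j => (a j : F)) = _
        congr 1
        funext j
        exact ha2 j
      rw [h1, mem_rootSet]
      exact ⟨minpoly.ne_zero hint, minpoly.aeval F α⟩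
  have hfin : (⋃ a ∈ T, (Q a).rootSet Ω).Finite :=
    Set.Finite.biUnion (Finset.finite_toSet T) fun a _ => rootSet_finite _ _
  refine ⟨hfin.subset hsub, ?_⟩
  have h1 : (S F Ω p R).ncard ≤ T.card * p := by
    refine (Set.ncard_le_ncard hsub hfin).trans ?_
    have h2 : (⋃ a ∈ T, (Q a).rootSet Ω) =
        ((T.biUnion fun a => (rootSet_finite (Q a) Ω).toFinset : Finset Ω) : Set Ω) := by
      ext x
      simp
    rw [h2, Set.ncard_coe_finset]
    refine Finset.card_biUnion_le.trans ?_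
    rw [← smul_eq_mul, ← Finset.sum_const]
    refine Finset.sum_le_sum fun a _ => ?_
    rw [← Set.ncard_eq_toFinset_card _ (rootSet_finite (Q a) Ω)]
    have h3 : (Q a).natDegree = p := P_natDegree _ (by omega)
    calc ((Q a).rootSet Ω).ncard ≤ ((Q a).aroots Ω).card := by
          rw [rootSet_def, Set.ncard_coe_finset]
          exact Multiset.toFinset_card_le _
      _ ≤ p := by
          refine (card_roots' _).trans ?_
          rw [← h3]
          exact natDegree_map_le
  have h4 : (T.card : ℝ) ≤ ∏ j : Fin (p - 1), (5 * 2 ^ p * R ^ (p - (j : ℕ))) ^ finrank ℚ F := by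
    rw [Fintype.card_piFinset]
    push_cast
    refine Finset.prod_le_prod (fun j _ => by positivity) fun j _ => ?_
    rw [← Set.ncard_eq_toFinset_card _ (finite_Box F (B j))]
    have h5 : 1 ≤ B j := by
      have h6 : 1 ≤ R ^ (p - (j : ℕ)) := one_le_pow₀ hR
      have h7 : (1 : ℝ) ≤ 2 ^ p := one_le_pow₀ (by norm_num)
      exact one_le_mul_of_one_le_of_one_le h6 h7
    refine (ncard_Box_le F h5).trans (le_of_eq ?_)
    simp only [B]
    ring
  calc ((S F Ω p R).ncard : ℝ) ≤ (T.card : ℝ) * p := by exact_mod_cast h1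
    _ ≤ (∏ j : Fin (p - 1), (5 * 2 ^ p * R ^ (p - (j : ℕ))) ^ finrank ℚ F) * p :=
        mul_le_mul_of_nonneg_right h4 (by positivity)
    _ = _ := by
        rw [Finset.prod_pow, Finset.prod_mul_distrib, Finset.prod_const, Finset.card_univ,
          Fintype.card_fin, Finset.prod_pow_eq_pow_sum, mul_pow, ← pow_mul, ← pow_mul]
        unfold ex
        ring

end Pool.Agent.Helper313LB
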